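import Pool.Agent.Lib_helper86.K4.ParP

set_option autoImplicit false

/-!
Project K4L, lemma RHO: for every `N ≥ 1`, every function `t` on `(ℤ/N)²`, alternating in
`(a, b, -a-b)` and even, with values in a `ℚ`-module, is a coboundary
`t(a,b) = ρ(a,b) + ρ(b,c) + ρ(c,a)`, `c = -a-b`, with `ρ` alternating and even in each variable.
-/

namespace Pool.Agent.K4L

open Finset

namespace Rho

variable {N : ℕ} {B : Type*} [AddCommGroup B] [Module ℚ B]

lemma self_neg {x : B} (h : x = -x) : x = 0 := by
  have h2 : (2 : ℚ) • x = 0 := by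
    rw [two_smul]; nth_rewrite 1 [h]; abel
  exact (smul_eq_zero.mp h2).resolve_left two_ne_zero

lemma z2 {t : ZMod N → ZMod N → B} (ht : K4ParP.IsT t) (b : ZMod N) : t b 0 = 0 := by
  have h1 : t b (-b) = 0 := by
    refine self_neg ?_
    have h2 := ht.even b (-b)
    rw [neg_neg, ht.swap b (-b)] at h2
    exact h2.symm
  have h3 := ht.rot (-b) b
  rw [neg_neg, sub_self] at h3
  rw [h3, ht.swap, h1, neg_zero]

lemma z1 {t : ZMod N → ZMod N → B} (ht : K4ParP.IsT t) (b : ZMod N) : t 0 b = 0 := by
  rw [ht.swap, z2 ht, neg_zero]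

/-- Euclid: an odd solution vanishes. -/
lemma euclid {c : ZMod N → ZMod N → B} (hc : K4ParP.IsT c) (h : ∀ x y, c x y + c x (-y) = 0)
    [NeZero N] (x y : ZMod N) : c x y = 0 := by
  have h' : ∀ x y, c x (-y) = - c x y := fun x y => eq_neg_of_add_eq_zero_right (h x y)
  have e1 : ∀ a b, c (a + b) b = c a b := by
    intro a b
    rw [← hc.rot a b, show -a - b = -(a + b) by ring, h', hc.swap]
  have e2 : ∀ a b, c a (a + b) = c a b := by
    intro a b
    rw [hc.swap, add_comm, e1, hc.swap, neg_neg]
  have key : ∀ s m n : ℕ, m + n ≤ s → c (m : ZMod N) (n : ZMod N) = 0 := by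
    intro s
    induction s with
    | zero =>
      intro m n hmn
      have : m = 0 := by omega
      rw [this, Nat.cast_zero, z1 hc]
    | succ s ih =>
      intro m n hmn
      rcases Nat.eq_zero_or_pos m with hm | hm
      · rw [hm, Nat.cast_zero, z1 hc]
      rcases Nat.eq_zero_or_pos n with hn | hn
      · rw [hn, Nat.cast_zero, z2 hc]
      rcases Nat.le_total m n with hmn' | hmn'
      · obtain ⟨k, rfl⟩ := Nat.exists_eq_add_of_le hmn'
        rw [Nat.cast_add, e2]
        exact ih _ _ (by omega)
      · obtain ⟨k, rfl⟩ := Nat.exists_eq_add_of_le hmn'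
        rw [Nat.cast_add, add_comm (n : ZMod N), e1]
        exact ih _ _ (by omega)
  have := key _ x.val y.val le_rfl
  rwa [ZMod.natCast_zmod_val, ZMod.natCast_zmod_val] at this

/-- indicator -/
def I (p x : ZMod N) : ℚ := if x = p then 1 else 0

lemma I_neg (p x : ZMod N) : I p (-x) = I (-p) x := by
  unfold I
  congr 1
  exact propext neg_eq_iff_eq_neg

lemma I_rot {p q r : ZMod N} (h : p + q + r = 0) (x y : ZMod N) :
    I p y * I q (-x - y) = I r x * I p y := by
  unfold I
  by_cases hy : y = p
  · subst hy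
    have : (-x - y = q) ↔ (x = r) := by
      constructor
      · intro e; linear_combination -e - h
      · intro e; linear_combination -e - h
    simp only [this, if_true, mul_one, one_mul]
  · simp only [hy, if_false, mul_zero, zero_mul]

/-- the symmetrised indicator of `(a, b)` -/
def sy (a b c x y : ZMod N) : ℚ :=
  I a x * I b y + I b x * I c y + I c x * I a y - I b x * I a y - I a x * I c y - I c x * I b y
  + (I (-a) x * I (-b) y + I (-b) x * I (-c) y + I (-c) x * I (-a) y
    - I (-b) x * I (-a) y - I (-a) x * I (-c) y - I (-c) x * I (-b) y)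

lemma sy_isT {a b c : ZMod N} (h : a + b + c = 0) : K4ParP.IsT (sy a b c) where
  swap x y := by unfold sy; ring
  rot x y := by
    have h' : -a + -b + -c = 0 := by linear_combination -h
    unfold sy
    rw [I_rot h x y, I_rot (show b + c + a = 0 by linear_combination h) x y,
      I_rot (show c + a + b = 0 by linear_combination h) x y,
      I_rot (show b + a + c = 0 by linear_combination h) x y,
      I_rot (show a + c + b = 0 by linear_combination h) x y,
      I_rot (show c + b + a = 0 by linear_combination h) x y,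
      I_rot h' x y, I_rot (show -b + -c + -a = 0 by linear_combination h') x y,
      I_rot (show -c + -a + -b = 0 by linear_combination h') x y,
      I_rot (show -b + -a + -c = 0 by linear_combination h') x y,
      I_rot (show -a + -c + -b = 0 by linear_combination h') x y,
      I_rot (show -c + -b + -a = 0 by linear_combination h') x y]
    ring
  even x y := by
    unfold sy
    simp only [I_neg, neg_neg]
    ring

/-- `e_a ∧ e_b` -/
def w (a b x y : ZMod N) : ℚ :=
  (I a x + I (-a) x) * (I b y + I (-b) y) - (I b x + I (-b) x) * (I a y + I (-a) y)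

lemma w_swap (a b : ZMod N) : w b a = - w a b := by
  funext x y
  simp only [w, Pi.neg_apply]
  ring

lemma w_ev (a b : ZMod N) : w (-a) b = w a b := by
  funext x y
  simp only [w, neg_neg]
  ring

lemma sy_w (a b c x y : ZMod N) :
    sy a b c x y + sy a b c x (-y) = w a b x y + w b c x y + w c a x y := by
  unfold sy w
  simp only [I_neg, neg_neg]
  ring

/-- the solutions -/
def X (N : ℕ) : Submodule ℚ (ZMod N → ZMod N → ℚ) where
  carrier := {c | K4ParP.IsT c}
  add_mem' {c d} hc hd :=
    { swap := fun a b => by simp only [Pi.add_apply]; rw [hc.swap, hd.swap]; ring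
      rot := fun a b => by simp only [Pi.add_apply]; rw [hc.rot, hd.rot]
      even := fun a b => by simp only [Pi.add_apply]; rw [hc.even, hd.even] }
  zero_mem' := { swap := fun a b => by simp, rot := fun a b => rfl, even := fun a b => rfl }
  smul_mem' r c hc :=
    { swap := fun a b => by
        simp only [Pi.smul_apply]; rw [hc.swap, smul_neg]
      rot := fun a b => by simp only [Pi.smul_apply]; rw [hc.rot]
      even := fun a b => by simp only [Pi.smul_apply]; rw [hc.even] }

/-- `c ↦ c(x,y) + c(x,-y)` -/
def D (N : ℕ) : X N →ₗ[ℚ] (ZMod N → ZMod N → ℚ) where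
  toFun c := fun x y => c.1 x y + c.1 x (-y)
  map_add' c d := by
    funext x y
    simp only [Submodule.coe_add, Pi.add_apply]
    ring
  map_smul' r c := by
    funext x y
    simp only [Submodule.coe_smul, Pi.smul_apply, smul_eq_mul, RingHom.id_apply]
    ring

lemma D_ker (N : ℕ) [NeZero N] : LinearMap.ker (D N) = ⊥ := by
  rw [LinearMap.ker_eq_bot']
  intro c hc
  ext x y
  refine euclid (c := c.1) c.2 (fun x y => ?_) x y
  exact congrFun (congrFun hc x) y

variable [NeZero N]

/-- the pairing with `t` -/
def tau (t : ZMod N → ZMod N → B) : X N →ₗ[ℚ] B where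
  toFun c := ∑ x, ∑ y, c.1 x y • t x y
  map_add' c d := by
    simp only [Submodule.coe_add, Pi.add_apply, add_smul, Finset.sum_add_distrib]
  map_smul' r c := by
    simp only [Submodule.coe_smul, Pi.smul_apply, smul_eq_mul, mul_smul, Finset.smul_sum,
      RingHom.id_apply]

lemma sum_I (t : ZMod N → ZMod N → B) (p q : ZMod N) :
    ∑ x, ∑ y, (I p x * I q y) • t x y = t p q := by
  unfold I
  simp [ite_smul, mul_ite]

lemma tau_sy {t : ZMod N → ZMod N → B} (ht : K4ParP.IsT t) {a b c : ZMod N}
    (h : a + b + c = 0) : tau t ⟨sy a b c, sy_isT h⟩ = (12 : ℚ) • t a b := by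
  have hc : c = -a - b := by linear_combination h
  have r1 : t b c = t a b := by rw [hc]; exact ht.rot a b
  have r2 : t c a = t a b := by
    rw [← r1, ← ht.rot b c]
    congr 1
    linear_combination h
  show ∑ x, ∑ y, sy a b c x y • t x y = _
  simp only [sy, add_smul, sub_smul, Finset.sum_add_distrib, Finset.sum_sub_distrib, sum_I]
  rw [ht.even, ht.even, ht.even, ht.even, ht.even, ht.even, ht.swap a b, ht.swap c a,
    ht.swap b c, r1, r2]
  module

end Rho

/-- **RHO.** -/
theorem exists_rho {N : ℕ} [NeZero N] {B : Type*} [AddCommGroup B] [Module ℚ B]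
    {t : ZMod N → ZMod N → B} (ht : K4ParP.IsT t) :
    ∃ ρ : ZMod N → ZMod N → B, (∀ a b, ρ b a = - ρ a b) ∧ (∀ a b, ρ (-a) b = ρ a b) ∧
      ∀ a b, t a b = ρ a b + ρ b (-a - b) + ρ (-a - b) a := by
  obtain ⟨L, hL⟩ := LinearMap.exists_leftInverse_of_injective (Rho.D N) (Rho.D_ker N)
  refine ⟨fun a b => (12 : ℚ)⁻¹ • Rho.tau t (L (Rho.w a b)), fun a b => ?_, fun a b => ?_,
    fun a b => ?_⟩
  · simp only
    rw [Rho.w_swap, map_neg, map_neg, smul_neg]
  · simp only
    rw [Rho.w_ev]
  · have h : a + b + (-a - b) = 0 := by ring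
    have e : Rho.w a b + Rho.w b (-a - b) + Rho.w (-a - b) a
        = Rho.D N ⟨Rho.sy a b (-a - b), Rho.sy_isT h⟩ := by
      funext x y
      exact (Rho.sy_w a b (-a - b) x y).symm
    simp only
    rw [← smul_add, ← smul_add, ← map_add, ← map_add, ← map_add, ← map_add, e,
      show L (Rho.D N ⟨Rho.sy a b (-a - b), Rho.sy_isT h⟩) = ⟨Rho.sy a b (-a - b), Rho.sy_isT h⟩
        from LinearMap.congr_fun hL _, Rho.tau_sy ht h, smul_smul,
      inv_mul_cancel₀ (by norm_num), one_smul]

end Pool.Agent.K4L
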